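import Pool.Agent.X196.UD2.Main

set_option autoImplicit false

/-!
Dense locally finite subgroups of the isometry group of the Urysohn space with distances in a set
with finitely many exceptional elements are infinity-MIF. The exceptional elements are those which
are not a sum of two elements or not a difference of two elements of the set.
-/

namespace Pool.Agent.Results.MP_fee130_al.DenseLocallyFinite

open Pool.Agent.X196.UD Pool.Agent.X196.UD2

theorem exc_rat : (Exc {x : ℝ | ∃ q : ℚ, 0 < q ∧ x = q}).Finite := by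
  have : Exc {x : ℝ | ∃ q : ℚ, 0 < q ∧ x = q} ⊆ ∅ := by
    rintro x ⟨⟨q, hq, rfl⟩, h⟩
    exfalso
    apply h
    refine ⟨⟨((q / 2 : ℚ) : ℝ), ⟨q / 2, by positivity, rfl⟩, ((q / 2 : ℚ) : ℝ),
      ⟨q / 2, by positivity, rfl⟩, ?_⟩, 1, ⟨1, one_pos, by norm_num⟩, ⟨1 + q, by positivity, ?_⟩⟩
    · push_cast; ring
    · push_cast; ring
  exact Set.finite_empty.subset this

theorem exc_sphere : (Exc {x : ℝ | ∃ q : ℚ, 0 < q ∧ q ≤ 1 ∧ x = q}).Finite := by
  have : Exc {x : ℝ | ∃ q : ℚ, 0 < q ∧ q ≤ 1 ∧ x = q} ⊆ {1} := by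
    rintro x ⟨⟨q, hq, hq1, rfl⟩, h⟩
    rw [Set.mem_singleton_iff]
    by_contra hne
    have hlt : q < 1 := lt_of_le_of_ne hq1 (fun h => hne (by rw [h]; norm_num))
    apply h
    refine ⟨⟨((q / 2 : ℚ) : ℝ), ⟨q / 2, by positivity, by linarith, rfl⟩, ((q / 2 : ℚ) : ℝ),
      ⟨q / 2, by positivity, by linarith, rfl⟩, ?_⟩, ((1 - q : ℚ) : ℝ),
      ⟨1 - q, by linarith, by linarith, rfl⟩, ⟨1, one_pos, le_rfl, ?_⟩⟩
    · push_cast; ring
    · push_cast; ring
  exact (Set.finite_singleton 1).subset this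

theorem exc_nat : (Exc {x : ℝ | ∃ n : ℕ, 0 < n ∧ x = n}).Finite := by
  have : Exc {x : ℝ | ∃ n : ℕ, 0 < n ∧ x = n} ⊆ {1} := by
    rintro x ⟨⟨n, hn, rfl⟩, h⟩
    rw [Set.mem_singleton_iff]
    by_contra hne
    have hn1 : n ≠ 1 := fun h => hne (by rw [h]; norm_num)
    apply h
    refine ⟨⟨((n - 1 : ℕ) : ℝ), ⟨n - 1, by omega, rfl⟩, ((1 : ℕ) : ℝ), ⟨1, one_pos, rfl⟩, ?_⟩,
      ((1 : ℕ) : ℝ), ⟨1, one_pos, rfl⟩, ⟨1 + n, by omega, ?_⟩⟩
    · rw [← Nat.cast_add]
      congr 1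
      omega
    · push_cast; ring
  exact (Set.finite_singleton 1).subset this

/-- For every distance value set with at least two elements and with only finitely many exceptional
elements, every dense locally finite subgroup of the isometry group of the Urysohn space is
infinity-MIF. Finite sets, the positive rationals, the rationals in `(0, 1]` and the positive
integers have only finitely many exceptional elements. -/
theorem result :
    (∀ (Δ : Set ℝ), DistSet Δ → Δ.Nontrivial → (Exc Δ).Finite →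
      ∀ (U : Type) [MetricSpace U], IsUrysohn Δ U →
        ∀ G : Subgroup (U ≃ᵢ U), DenseIn G → LocFin G → InfMIF G) ∧
    (∀ Δ : Set ℝ, Δ.Finite → (Exc Δ).Finite) ∧
    (Exc {x : ℝ | ∃ q : ℚ, 0 < q ∧ x = q}).Finite ∧
    (Exc {x : ℝ | ∃ q : ℚ, 0 < q ∧ q ≤ 1 ∧ x = q}).Finite ∧
    (Exc {x : ℝ | ∃ n : ℕ, 0 < n ∧ x = n}).Finite := by
  refine ⟨?_, ?_, exc_rat, exc_sphere, exc_nat⟩
  · intro Δ hD hnt hfin U _ hU G hG hL
    exact Pool.Agent.X196.UD2.main hfin hD hnt hU G hG hL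
  · intro Δ h
    exact h.subset (fun x hx => hx.1)

end Pool.Agent.Results.MP_fee130_al.DenseLocallyFinite
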